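import Pool.Agent.Helper69.SB.Rep
import Pool.Agent.Helper16.CB.Defs
import Pool.Agent.Helper4.CB.Defs

/-!
# CB for a prime `ℓ`: definitions of the algebra side
-/

set_option autoImplicit false

namespace Pool.Agent.Helper18.CL

open NumberField Polynomial Pool.Agent.Helper4.CB

/-- `b` is a norm from the algebra `F[X] / (X ^ ℓ - a)` -/
def IsNm {F : Type*} [Field F] (l : ℕ) (a b : F) : Prop :=
  ∃ e : AdjoinRoot (X ^ l - C a : F[X]), Algebra.norm F e = b

/-- the norm form of `F[X] / (X ^ ℓ - a)` -/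
def nf {R : Type*} [CommRing R] {l : ℕ} [NeZero l] (a : R) (x : Fin l → R) : R :=
  Matrix.det (Matrix.of fun p q : Fin l => (if p ≤ q then 1 else a) * x (q - p))

/-- bad places -/
def BadL {K : Type} [Field K] [NumberField K] (l J : ℕ) (p : Pl K) : Prop := nm p ≡ 1 [MOD l ^ J]

/-- **COP**: coprime pairs whose places are not bad. -/
def CopStmt (K : Type) [Field K] [NumberField K] (l J : ℕ) : Prop :=
  ∀ N1 : ℕ, N1 ≠ 0 → ∃ (L : Type) (_ : Field L) (_ : Algebra K L), FiniteDimensional K L ∧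
    (∃ ζ : L, IsPrimitiveRoot ζ (l ^ J)) ∧
    ∀ (g g' : 𝓞 K) (G G' : Ideal (𝓞 K)), g ≠ 0 → g' ≠ 0 → g ∈ G → g' ∈ G' → IsCoprime G G' →
      Ideal.span {(N1 : 𝓞 K)} * G ≤ Ideal.span {g} → Ideal.span {(N1 : 𝓞 K)} * G' ≤ Ideal.span {g'} →
      (∀ p : Pl K, G ≤ p.asIdeal → ¬ BadL l J p ∧ (l : 𝓞 K) ∉ p.asIdeal ∧ g' ∉ p.asIdeal) →
      (∀ p : Pl K, G' ≤ p.asIdeal → ¬ BadL l J p ∧ (l : 𝓞 K) ∉ p.asIdeal ∧ g ∉ p.asIdeal) →
      IsNm l (algebraMap K L g) (algebraMap K L g')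

/-- **ALG**: one finite extension for all pairs of units at the bad places; the extension may be
enlarged. -/
def AlgStmtL (K : Type) [Field K] [NumberField K] (l J : ℕ) : Prop :=
  ∃ (L : Type) (_ : Field L) (_ : Algebra K L), FiniteDimensional K L ∧
    (∃ ζ : L, IsPrimitiveRoot ζ l) ∧
    ∀ a b : K, a ≠ 0 → b ≠ 0 →
      (∀ p : Pl K, BadL l J p → p.valuation K a = 1 ∧ p.valuation K b = 1) →
      IsNm l (algebraMap K L a) (algebraMap K L b)

end Pool.Agent.Helper18.CL
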