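import Pool.Agent.Helper18.CL.Cop
import Pool.Agent.Helper14.CL.Nm
import Pool.Agent.Helper81.CL.Alg
import Pool.Agent.Helper15.CL.Decomp

/-!
# CB for a prime `ℓ`: the algebra side, final statement
-/

set_option autoImplicit false

namespace Pool.Agent.Helper18.CL

open NumberField Polynomial Pool.Agent.Helper4.CB

theorem facts {l : ℕ} (hl : l.Prime) : Pool.Agent.Helper81.CL.Facts l where
  mul := Pool.Agent.Helper98.CL.isNm_mul hl.ne_zero
  pow := Pool.Agent.Helper98.CL.isNm_pow hl.ne_zero
  self := Pool.Agent.Helper14.CL.isNm_self hl.ne_zero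
  map := Pool.Agent.Helper14.CL.isNm_map hl.ne_zero
  symm := fun F _ _ ζ hζ a b ha hb h => Pool.Agent.Helper98.CL.isNm_symm F l hl ζ hζ a b ha hb h

/-- **ALG for a prime `ℓ`**: one finite extension in which all symbols of pairs of units at the bad
places split. -/
theorem algL (K : Type) [Field K] [NumberField K] (l J : ℕ) (hl : l.Prime) (hJ : 2 ≤ J) :
    AlgStmtL K l J :=
  Pool.Agent.Helper81.CL.alg_of_decomp K l J (facts hl) hl hJ
    (Pool.Agent.Helper15.CL.exists_decomp K l hl) (cop K l J hl (by omega))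

end Pool.Agent.Helper18.CL
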