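import Pool.Agent.Helper12.CL.ExistsRoot
import Pool.Agent.Helper98.CL.Fr
import Pool.Agent.Helper69.SB.Core4
import Pool.Agent.Helper28.CL.Bal

/-!
# CB for a prime `ℓ`: coprime pairs
-/

set_option autoImplicit false

namespace Pool.Agent.Helper18.CL

open NumberField Polynomial Pool.Agent.Helper4.CB Pool.Agent.Helper69.SB
open Pool.Agent.Helper16.CB (Bal)

/-- an element of small norm divides a fixed integer -/
theorem dvd_factorial {L : Type} [Field L] [NumberField L] (c : ℝ) (η : 𝓞 L) (hη : η ≠ 0)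
    (h : (Ideal.absNorm (Ideal.span {η}) : ℝ) ≤ c) :
    η ∣ ((Nat.factorial ⌊c⌋₊ : ℕ) : 𝓞 L) := by
  have h1 : Ideal.absNorm (Ideal.span {η}) ≠ 0 := by
    intro h0
    rw [Ideal.absNorm_eq_zero_iff, Ideal.span_singleton_eq_bot] at h0
    exact hη h0
  have h2 : Ideal.absNorm (Ideal.span {η}) ≤ ⌊c⌋₊ := Nat.le_floor h
  have h3 : Ideal.absNorm (Ideal.span {η}) ∣ Nat.factorial ⌊c⌋₊ :=
    Nat.dvd_factorial (Nat.pos_of_ne_zero h1) h2
  have h4 : η ∣ ((Ideal.absNorm (Ideal.span {η}) : ℕ) : 𝓞 L) :=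
    Ideal.mem_span_singleton.1 (Ideal.absNorm_mem _)
  exact h4.trans (by exact_mod_cast (Nat.cast_dvd_cast (α := 𝓞 L) h3))

theorem map_dvd {K L : Type} [Field K] [NumberField K] [Field L] [NumberField L] [Algebra K L]
    (N1 : ℕ) (g : 𝓞 K) (G : Ideal (𝓞 K))
    (h : Ideal.span {(N1 : 𝓞 K)} * G ≤ Ideal.span {g}) (x : 𝓞 L)
    (hx : x ∈ G.map (algebraMap (𝓞 K) (𝓞 L))) :
    algebraMap (𝓞 K) (𝓞 L) g ∣ (N1 : 𝓞 L) * x := by
  have h1 := Ideal.map_mono (f := algebraMap (𝓞 K) (𝓞 L)) h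
  rw [Ideal.map_mul, Ideal.map_span, Ideal.map_span, Set.image_singleton, Set.image_singleton,
    map_natCast] at h1
  exact Ideal.mem_span_singleton.1 (h1 (Ideal.mul_mem_mul (Ideal.mem_span_singleton_self _) hx))

/-- the product of two elements with small cofactors divides a fixed multiple of the ideals -/
theorem prod_dvd {K L : Type} [Field K] [NumberField K] [Field L] [NumberField L] [Algebra K L]
    (N1 N2 l : ℕ) (g g' : 𝓞 K) (G G' : Ideal (𝓞 K))
    (h : Ideal.span {(N1 : 𝓞 K)} * G ≤ Ideal.span {g})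
    (h' : Ideal.span {(N1 : 𝓞 K)} * G' ≤ Ideal.span {g'})
    (u v : 𝓞 L) (hu : u ∣ (N2 : 𝓞 L)) (hv : v ∣ (N2 : 𝓞 L)) (x : 𝓞 L)
    (hx : x ∈ G.map (algebraMap (𝓞 K) (𝓞 L)) * G'.map (algebraMap (𝓞 K) (𝓞 L))) :
    (algebraMap (𝓞 K) (𝓞 L) g * u ^ l) * (algebraMap (𝓞 K) (𝓞 L) g' * v ^ l) ∣
      ((N1 ^ 2 * N2 ^ (2 * l) : ℕ) : 𝓞 L) * x := by
  have h1 : algebraMap (𝓞 K) (𝓞 L) g * algebraMap (𝓞 K) (𝓞 L) g' ∣ (N1 : 𝓞 L) ^ 2 * x := by
    induction hx using Submodule.mul_induction_on' with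
    | mem_mul_mem m hm n hn =>
      have h2 := mul_dvd_mul (map_dvd N1 g G h m hm) (map_dvd N1 g' G' h' n hn)
      have h3 : (N1 : 𝓞 L) * m * ((N1 : 𝓞 L) * n) = (N1 : 𝓞 L) ^ 2 * (m * n) := by ring
      rwa [h3] at h2
    | add m _ n _ hm hn =>
      rw [mul_add]
      exact dvd_add hm hn
  have h2 : u ^ l * v ^ l ∣ (N2 : 𝓞 L) ^ (2 * l) := by
    rw [two_mul, pow_add]
    exact mul_dvd_mul (pow_dvd_pow_of_dvd hu l) (pow_dvd_pow_of_dvd hv l)
  have h3 := mul_dvd_mul h1 h2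
  push_cast
  refine (dvd_of_eq ?_).trans (h3.trans (dvd_of_eq ?_)) <;> ring

theorem isCoprime_map {K L : Type} [Field K] [NumberField K] [Field L] [NumberField L]
    [Algebra K L] (G G' : Ideal (𝓞 K)) (h : IsCoprime G G') :
    IsCoprime (G.map (algebraMap (𝓞 K) (𝓞 L))) (G'.map (algebraMap (𝓞 K) (𝓞 L))) := by
  rw [Ideal.isCoprime_iff_sup_eq] at h ⊢
  rw [← Ideal.map_sup, h, Ideal.map_top]

/-- removal of `ℓ`-th powers -/
theorem isNm_of_pow {F : Type} [Field F] [CharZero F] {l : ℕ} (hl : l.Prime) (ζ : F)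
    (hζ : IsPrimitiveRoot ζ l) (g g' u v : F) (hg : g ≠ 0) (hg' : g' ≠ 0) (hu : u ≠ 0)
    (hv : v ≠ 0) (h : IsNm l (g * u ^ l) (g' * v ^ l)) : IsNm l g g' := by
  have key : ∀ A x w : F, w ≠ 0 → IsNm l A (x * w ^ l) → IsNm l A x := by
    intro A x w hw h1
    have h2 := Pool.Agent.Helper98.CL.isNm_mul hl.ne_zero h1
      (Pool.Agent.Helper98.CL.isNm_inv hl.ne_zero (pow_ne_zero l hw) (Pool.Agent.Helper98.CL.isNm_pow hl.ne_zero A w))
    have h3 : x * w ^ l * (w ^ l)⁻¹ = x := by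
      field_simp
    rwa [h3] at h2
  have h1 : IsNm l (g * u ^ l) g' := key _ _ v hv h
  have h2 : IsNm l g' (g * u ^ l) :=
    Pool.Agent.Helper98.CL.isNm_symm F l hl ζ hζ _ _ (mul_ne_zero hg (pow_ne_zero _ hu)) hg' h1
  have h3 : IsNm l g' g := key _ _ u hu h2
  exact Pool.Agent.Helper98.CL.isNm_symm F l hl ζ hζ _ _ hg' hg h3

/-- **COP** -/
theorem cop (K : Type) [Field K] [NumberField K] (l J : ℕ) (hl : l.Prime) (hJ : 1 ≤ J) :
    CopStmt K l J := by
  classical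
  intro N1 hN1
  haveI : NeZero l := ⟨hl.ne_zero⟩
  haveI : NeZero (l ^ J) := ⟨pow_ne_zero _ hl.ne_zero⟩
  -- the cyclotomic field
  obtain ⟨L₁, _, _, _, ζJ, hζJ⟩ : ∃ (L₁ : Type) (_ : Field L₁) (_ : NumberField L₁)
      (_ : Algebra K L₁), ∃ ζ : L₁, IsPrimitiveRoot ζ (l ^ J) := by
    haveI : NumberField (CyclotomicField (l ^ J) K) :=
      IsCyclotomicExtension.numberField {l ^ J} K _
    exact ⟨CyclotomicField (l ^ J) K, inferInstance, inferInstance, inferInstance,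
      IsCyclotomicExtension.zeta (l ^ J) K (CyclotomicField (l ^ J) K),
      IsCyclotomicExtension.zeta_spec (l ^ J) K (CyclotomicField (l ^ J) K)⟩
  have hζ1 : IsPrimitiveRoot (ζJ ^ (l ^ (J - 1))) l := by
    refine hζJ.pow (pow_pos hl.pos J) ?_
    rw [← pow_succ]
    congr 1
    omega
  set ζ : 𝓞 L₁ := hζ1.toInteger with hζdef
  have hζ : IsPrimitiveRoot ζ l := hζ1.toInteger_isPrimitiveRoot
  obtain ⟨c, hc, hbal⟩ := Pool.Agent.Helper28.CL.exists_bal L₁ l hl.one_le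
  set N2 : ℕ := Nat.factorial ⌊c⌋₊ with hN2
  set N0 : ℕ := N1 ^ 2 * N2 ^ (2 * l) with hN0
  have hN0' : N0 ≠ 0 := mul_ne_zero (pow_ne_zero _ hN1) (pow_ne_zero _ (Nat.factorial_ne_zero _))
  obtain ⟨FS, hFS, hcore⟩ := Pool.Agent.Helper69.SB.core4 L₁ l hl ζ hζ c N0 hN0'
  set P : L₁[X] := ∏ f ∈ FS, f with hP
  have hPne : P ≠ 0 := Finset.prod_ne_zero_iff.2 fun f hf => (hFS f hf).1.ne_zero
  set L := P.SplittingField with hL
  haveI : IsScalarTower K L₁ L := inferInstance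
  haveI : FiniteDimensional K L₁ := by
    haveI : IsScalarTower ℚ K L₁ := IsScalarTower.of_algebraMap_eq' (Subsingleton.elim _ _)
    exact Module.Finite.of_restrictScalars_finite ℚ K L₁
  have hinj : Function.Injective (algebraMap L₁ L) := (algebraMap L₁ L).injective
  haveI : CharZero L := charZero_of_injective_algebraMap hinj
  refine ⟨L, inferInstance, inferInstance, Module.Finite.trans L₁ L,
    ⟨algebraMap L₁ L ζJ, hζJ.map_of_injective hinj⟩, ?_⟩
  intro g g' G G' hg hg' hgG hgG' hcop hG hG' hp hp'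
  have hGne : G ≠ ⊥ := by
    rintro rfl
    exact hg (by simpa using hgG)
  have hGne' : G' ≠ ⊥ := by
    rintro rfl
    exact hg' (by simpa using hgG')
  have hinjO : Function.Injective (algebraMap (𝓞 K) (𝓞 L₁)) :=
    RingOfIntegers.algebraMap.injective K L₁
  have hg1 : algebraMap (𝓞 K) (𝓞 L₁) g ≠ 0 := by
    intro h0
    exact hg (hinjO (by rw [h0, map_zero]))
  have hg1' : algebraMap (𝓞 K) (𝓞 L₁) g' ≠ 0 := by
    intro h0
    exact hg' (hinjO (by rw [h0, map_zero]))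
  obtain ⟨u, hu0, hub, hun⟩ := hbal _ hg1
  obtain ⟨v, hv0, hvb, hvn⟩ := hbal _ hg1'
  obtain ⟨y, hy⟩ := Pool.Agent.Helper12.CL.exists_root K L₁ l J hl ⟨ζJ, hζJ⟩ G hGne g' hp l
  obtain ⟨y', hy'⟩ := Pool.Agent.Helper12.CL.exists_root K L₁ l J hl ⟨ζJ, hζJ⟩ G' hGne' g hp' l
  set a : 𝓞 L₁ := algebraMap (𝓞 K) (𝓞 L₁) g * u ^ l with ha
  set b : 𝓞 L₁ := algebraMap (𝓞 K) (𝓞 L₁) g' * v ^ l with hb
  have ha0 : a ≠ 0 := mul_ne_zero hg1 (pow_ne_zero _ hu0)
  have hb0 : b ≠ 0 := mul_ne_zero hg1' (pow_ne_zero _ hv0)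
  obtain ⟨z, hz0, hz00, f, hf, hchar⟩ := hcore a b ha0 hb0 hub hvb
    (G.map (algebraMap (𝓞 K) (𝓞 L₁))) (G'.map (algebraMap (𝓞 K) (𝓞 L₁)))
    (y * v) (y' * u) (isCoprime_map G G' hcop)
    (Ideal.mul_mem_right _ _ (Ideal.mem_map_of_mem _ hgG))
    (Ideal.mul_mem_right _ _ (Ideal.mem_map_of_mem _ hgG'))
    (by
      have h1 : (y * v) ^ l - b = v ^ l * (y ^ l - algebraMap (𝓞 K) (𝓞 L₁) g') := by
        rw [hb]; ring
      rw [h1]
      exact Ideal.mul_mem_left _ _ hy)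
    (by
      have h1 : (y' * u) ^ l - a = u ^ l * (y' ^ l - algebraMap (𝓞 K) (𝓞 L₁) g) := by
        rw [ha]; ring
      rw [h1]
      exact Ideal.mul_mem_left _ _ hy')
    (fun x hx => prod_dvd N1 N2 l g g' G G' hG hG' u v (dvd_factorial c u hu0 hun)
      (dvd_factorial c v hv0 hvn) x hx)
  -- a root of `f`
  have hfs : (f.map (algebraMap L₁ L)).Splits := by
    have h1 : (P.map (algebraMap L₁ L)).Splits := SplittingField.splits P
    refine h1.of_dvd ((Polynomial.map_ne_zero_iff hinj).2 hPne) (Polynomial.map_dvd _ ?_)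
    exact Finset.dvd_prod_of_mem _ hf
  have hfd : f.natDegree = l := (hFS f hf).2
  obtain ⟨t, ht⟩ : ∃ t : L, (f.map (algebraMap L₁ L)).eval t = 0 := by
    refine hfs.exists_eval_eq_zero ?_
    rw [degree_map]
    intro h0
    have h1 := natDegree_eq_of_degree_eq_some h0
    rw [hfd] at h1
    exact hl.ne_zero h1
  set s : L₁ := ((a * b : 𝓞 L₁) : L₁) with hs
  have hst : ((f.scaleRoots s).map (algebraMap L₁ L)).eval (algebraMap L₁ L s * t) = 0 := by
    rw [eval_map] at ht ⊢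
    exact scaleRoots_eval₂_eq_zero (algebraMap L₁ L) ht
  have hζL : IsPrimitiveRoot (algebraMap L₁ L (ζ : L₁)) l := by
    have h1 : IsPrimitiveRoot ((ζ : 𝓞 L₁) : L₁) l := hζ1
    exact h1.map_of_injective hinj
  have hinjA : Function.Injective (fun x : 𝓞 L₁ => algebraMap L₁ L (x : L₁)) :=
    hinj.comp RingOfIntegers.coe_injective
  have haL : algebraMap L₁ L (a : L₁) ≠ 0 := by
    intro h0
    exact ha0 (hinjA (by simpa using h0))
  have hbL : algebraMap L₁ L (b : L₁) ≠ 0 := by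
    intro h0
    exact hb0 (hinjA (by simpa using h0))
  have hkey := Pool.Agent.Helper98.CL.r5 L l hl (algebraMap L₁ L (ζ : L₁)) hζL (algebraMap L₁ L (a : L₁))
    (algebraMap L₁ L (b : L₁)) haL hbL
    (fun i j => algebraMap L₁ L (z i j : L₁))
    (by
      intro h0
      apply hz0
      funext i j
      have h1 := congrFun (congrFun h0 i) j
      apply hinjA
      simpa using h1)
    (by simp [hz00])
    (algebraMap L₁ L s * t)
    (by
      intro E _ _ β hβ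
      letI : Algebra L₁ E := ((algebraMap L E).comp (algebraMap L₁ L)).toAlgebra
      have h1 := hchar E β hβ
      have h2 : (algebraMap L₁ E) = (algebraMap L E).comp (algebraMap L₁ L) := rfl
      have h3 : (m1 (algebraMap L E (algebraMap L₁ L (ζ : L₁)))
          (algebraMap L E (algebraMap L₁ L (a : L₁))) β
          (fun r s => algebraMap L E (algebraMap L₁ L (z r s : L₁)))).charpoly =
          (f.scaleRoots s).map (algebraMap L₁ E) := h1
      rw [h3, h2, ← Polynomial.map_map, IsRoot.def, eval_map, eval₂_hom, hst, map_zero])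
  have hga : algebraMap L₁ L (a : L₁) = algebraMap K L (g : K) * (algebraMap L₁ L (u : L₁)) ^ l := by
    have h1 : ((algebraMap (𝓞 K) (𝓞 L₁) g * u ^ l : 𝓞 L₁) : L₁) =
        algebraMap K L₁ (g : K) * (u : L₁) ^ l := rfl
    rw [ha, h1, map_mul, map_pow, ← IsScalarTower.algebraMap_apply K L₁ L]
  have hgb : algebraMap L₁ L (b : L₁) = algebraMap K L (g' : K) * (algebraMap L₁ L (v : L₁)) ^ l := by
    have h1 : ((algebraMap (𝓞 K) (𝓞 L₁) g' * v ^ l : 𝓞 L₁) : L₁) =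
        algebraMap K L₁ (g' : K) * (v : L₁) ^ l := rfl
    rw [hb, h1, map_mul, map_pow, ← IsScalarTower.algebraMap_apply K L₁ L]
  rw [hga, hgb] at hkey
  refine isNm_of_pow hl _ hζL _ _ _ _ ?_ ?_ ?_ ?_ hkey
  · intro h0
    rw [hga, h0, zero_mul] at haL
    exact haL rfl
  · intro h0
    rw [hgb, h0, zero_mul] at hbL
    exact hbL rfl
  · intro h0
    exact hu0 (hinjA (by simpa using h0))
  · intro h0
    exact hv0 (hinjA (by simpa using h0))

end Pool.Agent.Helper18.CL
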