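import Pool.Agent.Helper18.CL.AlgL
import Pool.Agent.Helper17.CL.NmIff
import Pool.Agent.Helper79.CL.DenseFibre

/-!
# CB for a prime `ℓ`, algebra side: frames
-/

set_option autoImplicit false

namespace Pool.Agent.Helper18.CL.Fr

open NumberField Polynomial Pool.Agent.Helper4.CB Pool.Agent.Helper69.SB Pool.Agent.Helper18.CL
open Pool.Agent.Helper16.CB (Bal)

/-- **R2** (helper12): an element of `𝓞 K` prime to `G` is an `ℓ`-th power modulo every power of
`G 𝓞 L`, if no place dividing `G` is bad or divides `ℓ`, and `L` has a primitive `ℓ ^ J`-th root. -/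
theorem exists_root (K L : Type) [Field K] [NumberField K] [Field L] [NumberField L] [Algebra K L]
    (l J : ℕ) (hl : l.Prime) (hζ : ∃ ζ : L, IsPrimitiveRoot ζ (l ^ J)) (G : Ideal (𝓞 K))
    (hG : G ≠ ⊥) (x : 𝓞 K)
    (h : ∀ p : Pl K, G ≤ p.asIdeal → ¬ BadL l J p ∧ (l : 𝓞 K) ∉ p.asIdeal ∧ x ∉ p.asIdeal) (n : ℕ) :
    ∃ y : 𝓞 L, y ^ l - algebraMap (𝓞 K) (𝓞 L) x ∈ (G.map (algebraMap (𝓞 K) (𝓞 L))) ^ n :=
  Pool.Agent.Helper12.CL.exists_root K L l J hl hζ G hG x h n

/-- **R4** (helper69): the short element of the symbol algebra. -/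
theorem core4 (L : Type) [Field L] [NumberField L] (l : ℕ) [NeZero l] (hl : l.Prime) (ζ : 𝓞 L)
    (hζ : IsPrimitiveRoot ζ l) (c : ℝ) (N0 : ℕ) (hN0 : N0 ≠ 0) :
    ∃ FS : Finset L[X], (∀ f ∈ FS, f.Monic ∧ f.natDegree = l) ∧
      ∀ a b : 𝓞 L, a ≠ 0 → b ≠ 0 → Bal c a → Bal c b →
      ∀ (AA BB : Ideal (𝓞 L)) (h h' : 𝓞 L), IsCoprime AA BB → a ∈ AA → b ∈ BB →
        h ^ l - b ∈ AA ^ l → h' ^ l - a ∈ BB ^ l →
        (∀ x ∈ AA * BB, a * b ∣ (N0 : 𝓞 L) * x) →
        ∃ z : Fin l → Fin l → 𝓞 L, z ≠ 0 ∧ z 0 0 = 0 ∧ ∃ f ∈ FS,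
          ∀ (E : Type) [Field E] [Algebra L E] (β : E), β ^ l = algebraMap L E b →
            (m1 (algebraMap L E ζ) (algebraMap L E a) β
              (fun r s => algebraMap L E (z r s))).charpoly =
              (f.scaleRoots ((a * b : 𝓞 L) : L)).map (algebraMap L E) :=
  Pool.Agent.Helper69.SB.core4 L l hl ζ hζ c N0 hN0

/-- **R5** (helper98): an element of the symbol algebra without constant part whose characteristic
polynomial has a root in `F`. -/
theorem r5 (F : Type) [Field F] [CharZero F] (l : ℕ) [NeZero l] (hl : l.Prime) (ζ : F)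
    (hζ : IsPrimitiveRoot ζ l) (a b : F) (ha : a ≠ 0) (hb : b ≠ 0) (z : Fin l → Fin l → F)
    (hz : z ≠ 0) (hz0 : z 0 0 = 0) (t : F)
    (ht : ∀ (E : Type) [Field E] [Algebra F E] (β : E), β ^ l = algebraMap F E b →
      (m1 (algebraMap F E ζ) (algebraMap F E a) β
        (fun r s => algebraMap F E (z r s))).charpoly.IsRoot (algebraMap F E t)) :
    IsNm l a b :=
  Pool.Agent.Helper98.CL.r5 F l hl ζ hζ a b ha hb z hz hz0 t ht

/-- **SYM** (helper98). -/
theorem isNm_symm (F : Type) [Field F] [CharZero F] (l : ℕ) (hl : l.Prime) (ζ : F)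
    (hζ : IsPrimitiveRoot ζ l) (a b : F) (ha : a ≠ 0) (hb : b ≠ 0) (h : IsNm l a b) :
    IsNm l b a :=
  Pool.Agent.Helper98.CL.isNm_symm F l hl ζ hζ a b ha hb h

theorem isNm_mul {F : Type} [Field F] {l : ℕ} (hl : l ≠ 0) {a b b' : F} (h : IsNm l a b)
    (h' : IsNm l a b') : IsNm l a (b * b') :=
  Pool.Agent.Helper98.CL.isNm_mul hl h h'

theorem isNm_inv {F : Type} [Field F] {l : ℕ} (hl : l ≠ 0) {a b : F} (hb : b ≠ 0)
    (h : IsNm l a b) : IsNm l a b⁻¹ :=
  Pool.Agent.Helper98.CL.isNm_inv hl hb h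

theorem isNm_pow {F : Type} [Field F] {l : ℕ} (hl : l ≠ 0) (a b : F) : IsNm l a (b ^ l) :=
  Pool.Agent.Helper98.CL.isNm_pow hl a b

/-- norm of the root -/
theorem isNm_self {F : Type} [Field F] {l : ℕ} (hl : l ≠ 0) (a : F) :
    IsNm l a ((-1) ^ (l + 1) * a) :=
  Pool.Agent.Helper14.CL.isNm_self hl a

/-- extension of the field -/
theorem isNm_map {F E : Type} [Field F] [Field E] [Algebra F E] {l : ℕ} (hl : l ≠ 0) {a b : F}
    (h : IsNm l a b) : IsNm l (algebraMap F E a) (algebraMap F E b) :=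
  Pool.Agent.Helper14.CL.isNm_map hl h

/-- explicit form -/
theorem isNm_iff {F : Type} [Field F] {l : ℕ} [NeZero l] (a b : F) :
    IsNm l a b ↔ ∃ x : Fin l → F, nf a x = b :=
  Pool.Agent.Helper17.CL.isNm_iff a b

/-- **END1**: the rational points of one fibre are Zariski dense. If `G` vanishes at all points,
then at `x0 y / σ y` for all `y`, so on all points over the algebraic closure; divide by the
equation, which is monic in `X 0` up to sign, and `X ^ l - b` is separable at `x' = 0`. -/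
theorem dense_fibre (M : Type) [Field M] [CharZero M] (l : ℕ) [NeZero l] (hl : l.Prime) (ζ : M)
    (hζ : IsPrimitiveRoot ζ l) (a b : M) (ha : a ≠ 0) (hb : b ≠ 0)
    (hx : ∃ x : Fin l → M, nf a x = b)
    (G : MvPolynomial (Fin l) M)
    (hG : ∀ x : Fin l → M, nf a x = b → MvPolynomial.eval x G = 0) :
    G ∈ Ideal.span {nf (MvPolynomial.C a) (fun i => (MvPolynomial.X i : MvPolynomial (Fin l) M)) -
      MvPolynomial.C b} :=
  Pool.Agent.Helper79.CL.dense_fibre M l hl ζ hζ a b ha hb hx G hG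

/-- **COP** (helper18): from R2, R3 (`Helper28.CL.exists_bal`), R4, R5. -/
theorem cop (K : Type) [Field K] [NumberField K] (l J : ℕ) (hl : l.Prime) (hJ : 1 ≤ J) :
    CopStmt K l J :=
  Pool.Agent.Helper18.CL.cop K l J hl hJ

/-- **R1** (helper15): from COP to ALG. -/
theorem alg_of_cop (K : Type) [Field K] [NumberField K] (l J : ℕ) (hl : l.Prime) (hJ : 2 ≤ J)
    (_ : CopStmt K l J) : AlgStmtL K l J :=
  Pool.Agent.Helper18.CL.algL K l J hl hJ

end Pool.Agent.Helper18.CL.Fr
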